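import Pool.Agent.helper73.ASU.Spec2

set_option autoImplicit false

/-!
# ASU, row TOE: circulant embedding (helper30)
-/

namespace Pool.Agent.ASU

open Finset Pool.Agent.helper3.FT

theorem TOE_add (x y : ℝ) : e (x + y) = e x * e y := by
  unfold e
  rw [← Complex.exp_add]
  congr 1
  push_cast
  ring

theorem TOE_int (n : ℤ) : e (n : ℝ) = 1 := by
  unfold e
  rw [Complex.exp_eq_one_iff]
  exact ⟨n, by push_cast; ring⟩

theorem TOE_conj (x : ℝ) : (starRingEnd ℂ) (e x) = e (-x) := by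
  unfold e
  rw [← Complex.exp_conj]
  congr 1
  have h2 : (starRingEnd ℂ) (2 : ℂ) = 2 := Complex.conj_ofNat 2
  rw [map_mul, map_mul, map_mul, Complex.conj_I, Complex.conj_ofReal, Complex.conj_ofReal, h2]
  push_cast
  ring

theorem TOE_pow (x : ℝ) (n : ℕ) : e x ^ n = e (n * x) := by
  unfold e
  rw [← Complex.exp_nat_mul]
  congr 1
  push_cast
  ring

theorem TOE_eq_one {x : ℝ} (h : e x = 1) : ∃ n : ℤ, x = n := by
  unfold e at h
  rw [Complex.exp_eq_one_iff] at h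
  obtain ⟨n, hn⟩ := h
  refine ⟨n, ?_⟩
  have h2 : (2 * (Real.pi : ℂ) * Complex.I) ≠ 0 := Complex.two_pi_I_ne_zero
  have h3 : (2 * (Real.pi : ℂ) * Complex.I) * (x : ℂ) = (2 * (Real.pi : ℂ) * Complex.I) * ((n : ℝ) : ℂ) := by
    rw [hn]
    push_cast
    ring
  exact_mod_cast mul_left_cancel₀ h2 h3

theorem TOE_orth (d : ℕ) (hd : 1 ≤ d) (k : ℤ) :
    ∑ h ∈ range d, e ((k : ℝ) * h / d) = if (d : ℤ) ∣ k then (d : ℂ) else 0 := by
  have hd' : (d : ℝ) ≠ 0 := by positivity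
  have hp : ∀ h : ℕ, e ((k : ℝ) * h / d) = e ((k : ℝ) / d) ^ h := fun h => by
    rw [TOE_pow]
    congr 1
    ring
  simp_rw [hp]
  split_ifs with hk
  · obtain ⟨m, rfl⟩ := hk
    have h1 : e ((((d : ℤ) * m : ℤ) : ℝ) / d) = 1 := by
      have h2 : (((d : ℤ) * m : ℤ) : ℝ) / d = (m : ℝ) := by
        push_cast
        field_simp
      rw [h2, TOE_int]
    rw [h1]
    simp
  · have hne : e ((k : ℝ) / d) ≠ 1 := by
      intro h
      obtain ⟨n, hn⟩ := TOE_eq_one h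
      apply hk
      refine ⟨n, ?_⟩
      rw [div_eq_iff hd'] at hn
      have h3 : (k : ℝ) = ((d * n : ℤ) : ℝ) := by
        push_cast
        rw [hn]
        ring
      exact_mod_cast h3
    rw [geom_sum_eq hne, TOE_pow]
    have h4 : (d : ℝ) * ((k : ℝ) / d) = (k : ℝ) := by field_simp
    rw [h4, TOE_int, sub_self, zero_div]

/-- Parseval modulo `L` -/
theorem TOE_par (L : ℕ) (hL : 1 ≤ L) (S : Finset ℕ) (hS : ∀ x ∈ S, x < L) (v : ℕ → ℂ) (hv : ∀ x, ‖v x‖ ≤ 1) :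
    ∑ j ∈ range L, ‖∑ x ∈ S, v x * e ((x : ℝ) * j / L)‖ ^ 2 ≤ (L : ℝ) * S.card := by
  have key : ((∑ j ∈ range L, ‖∑ x ∈ S, v x * e ((x : ℝ) * j / L)‖ ^ 2 : ℝ) : ℂ)
      = ((L * ∑ x ∈ S, ‖v x‖ ^ 2 : ℝ) : ℂ) := by
    push_cast
    have h1 : ∀ j ∈ range L, ((‖∑ x ∈ S, v x * e ((x : ℝ) * j / L)‖ : ℂ)) ^ 2
        = ∑ x ∈ S, ∑ y ∈ S, v x * (starRingEnd ℂ) (v y) * e ((((x : ℤ) - (y : ℤ) : ℤ) : ℝ) * j / L) := by
      intro j _
      rw [← Complex.mul_conj', map_sum, sum_mul_sum]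
      refine sum_congr rfl fun x _ => sum_congr rfl fun y _ => ?_
      rw [map_mul, TOE_conj]
      have h2 : e ((((x : ℤ) - (y : ℤ) : ℤ) : ℝ) * j / L) = e ((x : ℝ) * j / L) * e (-((y : ℝ) * j / L)) := by
        rw [← TOE_add]
        congr 1
        push_cast
        ring
      rw [h2]
      ring
    rw [sum_congr rfl h1, sum_comm, mul_sum]
    refine sum_congr rfl fun x hx => ?_
    rw [sum_comm]
    rw [sum_eq_single x]
    · rw [← mul_sum, TOE_orth L hL, if_pos (by simp), Complex.mul_conj']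
      ring
    · intro y hy hyx
      rw [← mul_sum, TOE_orth L hL, if_neg, mul_zero]
      intro hd
      have h3 := hS x hx
      have h4 := hS y hy
      have h5 : (x : ℤ) - (y : ℤ) = 0 := by
        apply Int.eq_zero_of_abs_lt_dvd hd
        rw [abs_lt]
        constructor <;> omega
      omega
    · intro h
      exact absurd hx h
  have key2 : ∑ j ∈ range L, ‖∑ x ∈ S, v x * e ((x : ℝ) * j / L)‖ ^ 2 = L * ∑ x ∈ S, ‖v x‖ ^ 2 := by
    exact_mod_cast key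
  rw [key2]
  refine mul_le_mul_of_nonneg_left ?_ (Nat.cast_nonneg L)
  calc ∑ x ∈ S, ‖v x‖ ^ 2 ≤ ∑ x ∈ S, (1 : ℝ) :=
        sum_le_sum fun x _ => pow_le_one₀ (norm_nonneg _) (hv x)
    _ = S.card := by simp

theorem TOE_split (g : ℤ → ℂ) (h0 : g 0 = 0) (N : ℕ) (hN : 1 ≤ N) :
    ∑ h ∈ Ioo (-(N : ℤ)) N, g h = ∑ h ∈ Ico 1 N, g (h : ℤ) + ∑ h ∈ Ico 1 N, g (-(h : ℤ)) := by
  induction N, hN using Nat.le_induction with
  | base =>
    have h1 : Ioo (-((1 : ℕ) : ℤ)) ((1 : ℕ) : ℤ) = {0} := by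
      ext x
      simp only [mem_Ioo, mem_singleton]
      omega
    rw [h1]
    simp [h0]
  | succ N hN ih =>
    have h1 : Ioo (-((N + 1 : ℕ) : ℤ)) ((N + 1 : ℕ) : ℤ) = insert (N : ℤ) (insert (-(N : ℤ)) (Ioo (-(N : ℤ)) N)) := by
      ext x
      simp only [mem_Ioo, mem_insert]
      omega
    rw [h1, sum_insert, sum_insert, ih, sum_Ico_succ_top hN, sum_Ico_succ_top hN]
    · ring
    · simp only [mem_Ioo]
      omega
    · simp only [mem_insert, mem_Ioo]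
      omega

theorem TOE : TOE_stmt := by
  intro p hp χ N hN A hA B hB w hw
  have hL1 : 1 ≤ 2 * N := by omega
  have hLR : (0 : ℝ) < ((2 * N : ℕ) : ℝ) := by exact_mod_cast hL1
  obtain ⟨j0, hj0, hmax⟩ := Finset.exists_max_image (range (2 * N)) (fun j => ‖GS χ N j‖) ⟨0, by simp; omega⟩
  rw [mem_range] at hj0
  refine ⟨j0, hj0, ?_⟩
  have hχ0 : χ (0 : ZMod p) = 0 := by
    apply MulChar.map_nonunit
    exact not_isUnit_zero
  -- the Fourier coefficients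
  set F : ℕ → ℂ := fun j => ∑ h ∈ Ioo (-(N : ℤ)) N, χ (h : ZMod p) * e ((h : ℝ) * j / ((2 * N : ℕ) : ℝ)) with hF
  have hGS : ∀ j : ℕ, GS χ N j = ∑ h ∈ Ico 1 N, χ (h : ZMod p) * e ((h : ℝ) * j / ((2 * N : ℕ) : ℝ)) := by
    intro j
    unfold GS
    push_cast
    rfl
  have hFb : ∀ j ∈ range (2 * N), ‖F j‖ ≤ 2 * ‖GS χ N j0‖ := by
    intro j hj
    have h1 : F j = GS χ N j + χ (-1) * ∑ h ∈ Ico 1 N, χ (h : ZMod p) * e (-((h : ℝ) * j / ((2 * N : ℕ) : ℝ))) := by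
      simp only [hF]
      rw [TOE_split (fun h : ℤ => χ (h : ZMod p) * e ((h : ℝ) * j / ((2 * N : ℕ) : ℝ))) (by simp [hχ0]) N hN, hGS,
        mul_sum]
      congr 1
      · refine sum_congr rfl fun h _ => ?_
        push_cast
        rfl
      · refine sum_congr rfl fun h _ => ?_
        have h2 : (((-(h : ℤ) : ℤ)) : ZMod p) = (-1) * (h : ZMod p) := by
          push_cast
          ring
        rw [h2, map_mul]
        have h3 : (((-(h : ℤ) : ℤ)) : ℝ) * j / ((2 * N : ℕ) : ℝ) = -((h : ℝ) * j / ((2 * N : ℕ) : ℝ)) := by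
          push_cast
          ring
        rw [h3]
        ring
    have h4 : ∃ j' ∈ range (2 * N), ∑ h ∈ Ico 1 N, χ (h : ZMod p) * e (-((h : ℝ) * j / ((2 * N : ℕ) : ℝ))) = GS χ N j' := by
      rcases Nat.eq_zero_or_pos j with h0 | h0
      · refine ⟨0, by simp; omega, ?_⟩
        rw [hGS, h0]
        refine sum_congr rfl fun h _ => ?_
        congr 2
        simp
      · rw [mem_range] at hj
        refine ⟨2 * N - j, by rw [mem_range]; omega, ?_⟩
        rw [hGS]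
        refine sum_congr rfl fun h _ => ?_
        congr 1
        have h5 : (h : ℝ) * ((2 * N - j : ℕ) : ℝ) / ((2 * N : ℕ) : ℝ)
            = -((h : ℝ) * j / ((2 * N : ℕ) : ℝ)) + (((h : ℤ)) : ℝ) := by
          rw [Nat.cast_sub hj.le]
          field_simp
          push_cast
          ring
        rw [h5, TOE_add, TOE_int, mul_one]
    obtain ⟨j', hj', h5⟩ := h4
    rw [h1, h5]
    calc ‖GS χ N j + χ (-1) * GS χ N j'‖ ≤ ‖GS χ N j‖ + ‖χ (-1) * GS χ N j'‖ := norm_add_le _ _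
      _ ≤ ‖GS χ N j0‖ + ‖GS χ N j0‖ := by
          refine add_le_add (hmax j hj) ?_
          rw [norm_mul]
          calc ‖χ (-1)‖ * ‖GS χ N j'‖ ≤ 1 * ‖GS χ N j'‖ :=
                mul_le_mul_of_nonneg_right (χ.norm_le_one _) (norm_nonneg _)
            _ ≤ ‖GS χ N j0‖ := by rw [one_mul]; exact hmax j' hj'
      _ = 2 * ‖GS χ N j0‖ := by ring
  -- inversion
  have hinv : ∀ x y : ℕ, x < N → y < N → (((2 * N : ℕ) : ℝ) : ℂ) * CM χ x y
      = ∑ j ∈ range (2 * N), F j * (e (-((x : ℝ) * j / ((2 * N : ℕ) : ℝ))) * e ((y : ℝ) * j / ((2 * N : ℕ) : ℝ))) := by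
    intro x y hx hy
    have h1 : ∀ j ∈ range (2 * N), F j * (e (-((x : ℝ) * j / ((2 * N : ℕ) : ℝ))) * e ((y : ℝ) * j / ((2 * N : ℕ) : ℝ)))
        = ∑ h ∈ Ioo (-(N : ℤ)) N, χ (h : ZMod p) * e (((h - ((x : ℤ) - y) : ℤ) : ℝ) * j / ((2 * N : ℕ) : ℝ)) := by
      intro j _
      simp only [hF]
      rw [sum_mul]
      refine sum_congr rfl fun h _ => ?_
      rw [mul_assoc, ← TOE_add, ← TOE_add]
      congr 2
      push_cast
      ring
    rw [sum_congr rfl h1, sum_comm]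
    rw [sum_eq_single ((x : ℤ) - y)]
    · rw [← mul_sum, TOE_orth _ hL1, if_pos (by simp)]
      unfold CM
      push_cast
      ring
    · intro h hh hne
      rw [mem_Ioo] at hh
      rw [← mul_sum, TOE_orth _ hL1, if_neg, mul_zero]
      intro hd
      apply hne
      have h5 : h - ((x : ℤ) - (y : ℤ)) = 0 := by
        apply Int.eq_zero_of_abs_lt_dvd hd
        rw [abs_lt]
        push_cast
        constructor <;> omega
      omega
    · intro h
      exfalso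
      apply h
      rw [mem_Ioo]
      constructor <;> omega
  -- phases
  have hph : ∀ z : ℂ, ∃ u : ℂ, ‖u‖ ≤ 1 ∧ ((‖z‖ : ℝ) : ℂ) = u * z := by
    intro z
    rcases eq_or_ne z 0 with hz | hz
    · exact ⟨0, by simp, by simp [hz]⟩
    · have hz' : ‖z‖ ≠ 0 := norm_ne_zero_iff.mpr hz
      refine ⟨(starRingEnd ℂ) z / ‖z‖, ?_, ?_⟩
      · rw [norm_div, RCLike.norm_conj, Complex.norm_real, norm_norm, div_self hz']
      · rw [div_mul_eq_mul_div, mul_comm ((starRingEnd ℂ) z), Complex.mul_conj', pow_two,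
          mul_div_assoc, div_self (by exact_mod_cast hz'), mul_one]
  choose u hu1 hu2 using hph
  set U : ℕ → ℂ := fun x => u (∑ y ∈ B, w y * CM χ x y) with hU
  have hBB : ((((2 * N : ℕ) : ℝ) * BB (CM χ) A B w : ℝ) : ℂ)
      = ∑ j ∈ range (2 * N), F j * ((∑ x ∈ A, U x * e (-((x : ℝ) * j / ((2 * N : ℕ) : ℝ))))
          * ∑ y ∈ B, w y * e ((y : ℝ) * j / ((2 * N : ℕ) : ℝ))) := by
    have h1 : ((BB (CM χ) A B w : ℝ) : ℂ) = ∑ x ∈ A, ∑ y ∈ B, U x * w y * CM χ x y := by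
      unfold BB
      rw [Complex.ofReal_sum]
      refine sum_congr rfl fun x _ => ?_
      rw [hu2, mul_sum]
      refine sum_congr rfl fun y _ => ?_
      rw [mul_assoc]
    rw [Complex.ofReal_mul, h1, mul_sum]
    have h2 : ∀ x ∈ A, (((2 * N : ℕ) : ℝ) : ℂ) * ∑ y ∈ B, U x * w y * CM χ x y
        = ∑ j ∈ range (2 * N), ∑ y ∈ B, F j * (U x * e (-((x : ℝ) * j / ((2 * N : ℕ) : ℝ)))
          * (w y * e ((y : ℝ) * j / ((2 * N : ℕ) : ℝ)))) := by
      intro x hx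
      rw [mul_sum, sum_comm]
      refine sum_congr rfl fun y hy => ?_
      have h3 := hinv x y (mem_range.mp (hA hx)) (mem_range.mp (hB hy))
      calc (((2 * N : ℕ) : ℝ) : ℂ) * (U x * w y * CM χ x y) = U x * w y * ((((2 * N : ℕ) : ℝ) : ℂ) * CM χ x y) := by ring
        _ = _ := by
          rw [h3, mul_sum]
          refine sum_congr rfl fun j _ => ?_
          ring
    rw [sum_congr rfl h2, sum_comm]
    refine sum_congr rfl fun j _ => ?_
    rw [sum_mul_sum, mul_sum]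
    refine sum_congr rfl fun x _ => ?_
    rw [mul_sum]
  have hBB0 : 0 ≤ BB (CM χ) A B w := by
    unfold BB
    exact sum_nonneg fun x _ => norm_nonneg _
  have hnorm : ((2 * N : ℕ) : ℝ) * BB (CM χ) A B w
      ≤ ∑ j ∈ range (2 * N), (2 * ‖GS χ N j0‖) * (‖∑ x ∈ A, U x * e (-((x : ℝ) * j / ((2 * N : ℕ) : ℝ)))‖
          * ‖∑ y ∈ B, w y * e ((y : ℝ) * j / ((2 * N : ℕ) : ℝ))‖) := by
    have h1 : ((2 * N : ℕ) : ℝ) * BB (CM χ) A B w = ‖((((2 * N : ℕ) : ℝ) * BB (CM χ) A B w : ℝ) : ℂ)‖ := by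
      rw [Complex.norm_real, Real.norm_of_nonneg (mul_nonneg hLR.le hBB0)]
    rw [h1, hBB]
    refine (norm_sum_le _ _).trans (sum_le_sum fun j hj => ?_)
    rw [norm_mul, norm_mul]
    exact mul_le_mul_of_nonneg_right (hFb j hj) (mul_nonneg (norm_nonneg _) (norm_nonneg _))
  have hUn : ∀ j ∈ range (2 * N), ‖∑ x ∈ A, U x * e (-((x : ℝ) * j / ((2 * N : ℕ) : ℝ)))‖
      = ‖∑ x ∈ A, (starRingEnd ℂ) (U x) * e ((x : ℝ) * j / ((2 * N : ℕ) : ℝ))‖ := by
    intro j _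
    rw [← RCLike.norm_conj (∑ x ∈ A, U x * e (-((x : ℝ) * j / ((2 * N : ℕ) : ℝ)))), map_sum]
    congr 1
    refine sum_congr rfl fun x _ => ?_
    rw [map_mul, TOE_conj, neg_neg]
  have hPA := TOE_par (2 * N) hL1 A (fun x hx => by have := mem_range.mp (hA hx); omega)
    (fun x => (starRingEnd ℂ) (U x)) (fun x => by rw [RCLike.norm_conj]; exact hu1 _)
  have hPB := TOE_par (2 * N) hL1 B (fun x hx => by have := mem_range.mp (hB hx); omega) w hw
  have hCS : ∑ j ∈ range (2 * N), ‖∑ x ∈ A, (starRingEnd ℂ) (U x) * e ((x : ℝ) * j / ((2 * N : ℕ) : ℝ))‖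
          * ‖∑ y ∈ B, w y * e ((y : ℝ) * j / ((2 * N : ℕ) : ℝ))‖
      ≤ ((2 * N : ℕ) : ℝ) * √((A.card : ℝ) * B.card) := by
    refine (Real.sum_mul_le_sqrt_mul_sqrt _ _ _).trans ?_
    calc _ ≤ √(((2 * N : ℕ) : ℝ) * A.card) * √(((2 * N : ℕ) : ℝ) * B.card) :=
          mul_le_mul (Real.sqrt_le_sqrt hPA) (Real.sqrt_le_sqrt hPB) (Real.sqrt_nonneg _) (Real.sqrt_nonneg _)
      _ = ((2 * N : ℕ) : ℝ) * √((A.card : ℝ) * B.card) := by
          rw [← Real.sqrt_mul (by positivity)]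
          have h1 : ((2 * N : ℕ) : ℝ) * (A.card : ℝ) * (((2 * N : ℕ) : ℝ) * B.card)
              = ((2 * N : ℕ) : ℝ) ^ 2 * ((A.card : ℝ) * B.card) := by ring
          rw [h1, Real.sqrt_mul (by positivity), Real.sqrt_sq hLR.le]
  have hfin : ((2 * N : ℕ) : ℝ) * BB (CM χ) A B w
      ≤ ((2 * N : ℕ) : ℝ) * (2 * √((A.card : ℝ) * B.card) * ‖GS χ N j0‖) := by
    refine hnorm.trans ?_
    rw [← mul_sum]
    have h1 : ∑ j ∈ range (2 * N), ‖∑ x ∈ A, U x * e (-((x : ℝ) * j / ((2 * N : ℕ) : ℝ)))‖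
          * ‖∑ y ∈ B, w y * e ((y : ℝ) * j / ((2 * N : ℕ) : ℝ))‖
        = ∑ j ∈ range (2 * N), ‖∑ x ∈ A, (starRingEnd ℂ) (U x) * e ((x : ℝ) * j / ((2 * N : ℕ) : ℝ))‖
          * ‖∑ y ∈ B, w y * e ((y : ℝ) * j / ((2 * N : ℕ) : ℝ))‖ :=
      sum_congr rfl fun j hj => by rw [hUn j hj]
    rw [h1]
    calc 2 * ‖GS χ N j0‖ * _ ≤ 2 * ‖GS χ N j0‖ * (((2 * N : ℕ) : ℝ) * √((A.card : ℝ) * B.card)) :=
          mul_le_mul_of_nonneg_left hCS (by positivity)
      _ = ((2 * N : ℕ) : ℝ) * (2 * √((A.card : ℝ) * B.card) * ‖GS χ N j0‖) := by ring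
  exact le_of_mul_le_mul_left hfin hLR

end Pool.Agent.ASU
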